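import Pool.Agent.Lib.WkD.Final

/-!
The consistency of weak diamond together with the failure of diamond at a strongly inaccessible
cardinal, relative to an indestructibly supercompact cardinal.
-/

namespace Pool.Agent.Results.MP_f050fa_lc.WeakDiamondNotDiamond

open Pool.Agent.Lib.BVM Pool.Agent.Lib.WkD

/-- If there is an indestructibly supercompact cardinal, then there is a model of ZFC with a
strongly inaccessible cardinal `lam` at which weak diamond holds and diamond fails. -/
theorem result (κ : Cardinal.{0}) (h : IndestructiblySupercompact κ) :
    ∃ (M : Type 1) (E : M → M → Prop), ModelZFC M E ∧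
      ∃ lam, IsStronglyInaccessible E lam ∧ WeakDiamond E lam ∧ ¬ Diamond E lam :=
  main κ h

end Pool.Agent.Results.MP_f050fa_lc.WeakDiamondNotDiamond
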